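import Mathlib

set_option autoImplicit false

/-!
# Covering intervals by residue classes: definitions
-/

namespace Pool.Agent.Lib.MP_2a99c0_nt

/-- `{1, …, y}` can be covered by one residue class modulo each prime `p ≤ x`. -/
def PrimeCover (x y : ℕ) : Prop :=
  ∃ a : ℕ → ℤ, ∀ n : ℕ, 1 ≤ n → n ≤ y → ∃ p : ℕ, p.Prime ∧ p ≤ x ∧ (n : ℤ) ≡ a p [ZMOD (p : ℤ)]

/-- Erdős's question: `Y(x) ≪ x ^ (1 + o(1))`. -/
def ErdosBound : Prop :=
  ∀ ε : ℝ, 0 < ε → ∃ C : ℝ, 0 < C ∧ ∃ x₀ : ℕ, ∀ x : ℕ, x₀ ≤ x →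
    ∀ y : ℕ, PrimeCover x y → (y : ℝ) ≤ C * (x : ℝ) ^ (1 + ε)

/-- Jacobsthal's function: the least `g` such that any `g` consecutive integers contain one which
is coprime to `n`. -/
noncomputable def jacobsthal (n : ℕ) : ℕ :=
  sInf {g : ℕ | ∀ N : ℤ, ∃ m : ℤ, N < m ∧ m ≤ N + g ∧ IsCoprime m (n : ℤ)}

/-- Jacobsthal's function is bounded by the power `1 + o(1)` of the number of prime factors. -/
def JacobsthalBound : Prop :=
  ∀ ε : ℝ, 0 < ε → ∃ C : ℝ, ∀ n : ℕ, 2 ≤ n →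
    (jacobsthal n : ℝ) ≤ C * (n.primeFactors.card : ℝ) ^ (1 + ε)

/-- the elements of `{1, …, y}` which lie in none of the residue classes `a i mod m i` -/
noncomputable def uncovered {k : ℕ} (m : Fin k → ℕ) (a : Fin k → ℤ) (y : ℕ) : Finset ℕ :=
  open Classical in (Finset.Icc 1 y).filter fun n => ∀ i, ¬ (n : ℤ) ≡ a i [ZMOD (m i : ℤ)]

/-- At most `y ^ (1 - ε)` residue classes, such that their moduli are at least `2` and those moduli
which are at most `y ^ (1 - δ)` are pairwise coprime, always miss at least `y ^ (1 - η)` elements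
of `{1, …, y}`, for large `y`. -/
def RobustBound : Prop :=
  ∀ δ ε η : ℝ, 0 < δ → δ < ε → 0 < η → ∃ y₀ : ℕ, ∀ y : ℕ, y₀ ≤ y →
    ∀ (k : ℕ) (m : Fin k → ℕ) (a : Fin k → ℤ), (k : ℝ) ≤ (y : ℝ) ^ (1 - ε) → (∀ i, 2 ≤ m i) →
      (∀ i j, i ≠ j → (m i : ℝ) ≤ (y : ℝ) ^ (1 - δ) → (m j : ℝ) ≤ (y : ℝ) ^ (1 - δ) →
        (m i).Coprime (m j)) →
      (y : ℝ) ^ (1 - η) ≤ (uncovered m a y).card

end Pool.Agent.Lib.MP_2a99c0_nt
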