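import Pool.Agent.Lib.MP_2a99c0_nt.Defs

set_option autoImplicit false

/-!
# Covering intervals by residue classes: proofs
-/

namespace Pool.Agent.Lib.MP_2a99c0_nt

open Filter

/-- the number of elements of `{1, …, y}` in a residue class -/
lemma card_class_le (y q : ℕ) (hq : 0 < q) (a : ℤ) :
    (((Finset.Icc 1 y).filter fun n : ℕ => (n : ℤ) ≡ a [ZMOD (q : ℤ)]).card : ℝ) ≤
      (y : ℝ) / q + 1 := by
  classical
  obtain ⟨v, hv⟩ : ∃ v : ℕ, (v : ℤ) ≡ a [ZMOD (q : ℤ)] := by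
    refine ⟨(a % q).toNat, ?_⟩
    have h0 : 0 ≤ a % q := Int.emod_nonneg _ (by omega)
    rw [Int.toNat_of_nonneg h0]
    exact Int.mod_modEq _ _
  have h1 : ((Finset.Icc 1 y).filter fun n : ℕ => (n : ℤ) ≡ a [ZMOD (q : ℤ)]) =
      (Finset.Ioc 0 y).filter fun n : ℕ => n ≡ v [MOD q] := by
    ext n
    simp only [Finset.mem_filter, Finset.mem_Icc, Finset.mem_Ioc]
    refine and_congr (by omega) ?_
    rw [← Int.natCast_modEq_iff]
    exact ⟨fun h => h.trans hv.symm, fun h => h.trans hv⟩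
  rw [h1]
  have h2 := Nat.Ioc_filter_modEq_card 0 y hq v
  have h3 : ((((Finset.Ioc 0 y).filter fun n : ℕ => n ≡ v [MOD q]).card : ℤ) : ℚ) ≤
      (y : ℚ) / q + 1 := by
    rw [h2]
    have hq' : (0 : ℚ) < q := by exact_mod_cast hq
    rw [Int.cast_max, Int.cast_zero]
    apply max_le _ (by positivity)
    push_cast
    have h4 := Int.floor_le (((y : ℚ) - v) / q)
    have h5 := Int.lt_floor_add_one (((0 : ℚ) - v) / q)
    have h6 : ((y : ℚ) - v) / q = y / q + (0 - v) / q := by ring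

    linarith
  have h7 : ((((Finset.Ioc 0 y).filter fun n : ℕ => n ≡ v [MOD q]).card : ℚ) : ℝ) ≤
      (((y : ℚ) / q + 1 : ℚ) : ℝ) := by
    exact_mod_cast h3
  push_cast at h7
  exact h7

/-- Lower bound for the number of primes. -/
lemma eventually_pi (θ : ℝ) (hθ : 0 < θ) :
    ∀ᶠ n : ℕ in atTop, (n : ℝ) ^ (1 - θ) ≤ (Nat.primeCounting n : ℝ) := by
  have h1 : ∀ᶠ x : ℝ in atTop, Real.log x ≤ 1 / 4 * x ^ θ := by
    have := (isLittleO_log_rpow_atTop hθ).bound (show (0 : ℝ) < 1 / 4 by norm_num)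
    filter_upwards [this, eventually_ge_atTop 1] with x hx hx1
    rw [Real.norm_of_nonneg (Real.log_nonneg hx1), Real.norm_of_nonneg (by positivity)] at hx
    exact hx
  have h2 : ∀ᶠ x : ℝ in atTop, Real.log x ≤ 1 / 16 * x := by
    have := Real.isLittleO_log_id_atTop.bound (show (0 : ℝ) < 1 / 16 by norm_num)
    filter_upwards [this, eventually_ge_atTop 1] with x hx hx1
    rw [Real.norm_of_nonneg (Real.log_nonneg hx1), id, Real.norm_of_nonneg (by positivity)] at hx
    exact hx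
  have h3 : Tendsto (fun n : ℕ => (n : ℝ)) atTop atTop := tendsto_natCast_atTop_atTop
  have h4 : Tendsto (fun n : ℕ => (n : ℝ) + 1) atTop atTop :=
    tendsto_atTop_add_const_right _ _ h3
  filter_upwards [h3.eventually h1, h4.eventually h2, eventually_ge_atTop 2] with n hn1 hn2 hn
  have hn' : (2 : ℝ) ≤ n := by exact_mod_cast hn
  have hlog : 0 < Real.log n := Real.log_pos (by linarith)
  refine le_trans ?_ (Chebyshev.pi_ge n)
  rw [le_div_iff₀ hlog]
  have hl2 : (0.69 : ℝ) ≤ Real.log 2 := by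
    have := Real.log_two_gt_d9
    linarith
  calc (n : ℝ) ^ (1 - θ) * Real.log n ≤ (n : ℝ) ^ (1 - θ) * (1 / 4 * (n : ℝ) ^ θ) := by
        gcongr
    _ = 1 / 4 * n := by
        rw [mul_left_comm, ← Real.rpow_add (by linarith)]
        simp
    _ ≤ n * Real.log 2 - Real.log (n + 1) := by nlinarith

/-- completing a covering with unused primes -/
lemma primeCover_of_residual {X y : ℕ} (P0 : Finset ℕ)
    (hP0X : ∀ p ∈ P0, p ≤ X) (a : ℕ → ℤ) (hP0 : ∀ p ∈ P0, p.Prime) (R : Finset ℕ)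
    (hR : R.card + P0.card ≤ Nat.primeCounting X)
    (hcov : ∀ n : ℕ, 1 ≤ n → n ≤ y → n ∉ R → ∃ p ∈ P0, (n : ℤ) ≡ a p [ZMOD (p : ℤ)]) :
    PrimeCover X y := by
  classical
  have hcard : R.card ≤ (Nat.primesLE X \ P0).card := by
    rw [Finset.card_sdiff_of_subset]
    · rw [Nat.primesLE_card_eq_primeCounting]; omega
    · intro p hp
      rw [Nat.mem_primesLE]
      exact ⟨hP0X p hp, hP0 p hp⟩
  obtain ⟨S, hS, hSc⟩ := Finset.exists_subset_card_eq hcard
  obtain ⟨e⟩ : Nonempty (R ≃ S) := ⟨Finset.equivOfCardEq hSc.symm⟩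
  refine ⟨fun p => if p ∈ P0 then a p else
    if h : p ∈ S then ((e.symm ⟨p, h⟩ : R) : ℕ) else 0, fun n h1 h2 => ?_⟩
  by_cases hn : n ∈ R
  · have hmem := hS (e ⟨n, hn⟩).2
    rw [Finset.mem_sdiff, Nat.mem_primesLE] at hmem
    refine ⟨(e ⟨n, hn⟩ : S), hmem.1.2, hmem.1.1, ?_⟩
    have h3 : ((e ⟨n, hn⟩ : S) : ℕ) ∈ S := (e ⟨n, hn⟩).2
    simp only [if_neg hmem.2, dif_pos h3]
    have h4 : (⟨((e ⟨n, hn⟩ : S) : ℕ), h3⟩ : S) = e ⟨n, hn⟩ := rfl
    rw [h4, Equiv.symm_apply_apply]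
  · obtain ⟨p, hp, hpn⟩ := hcov n h1 h2 hn
    exact ⟨p, hP0 p hp, hP0X p hp, by simp only [if_pos hp]; exact hpn⟩

/-- replacing coprime moduli by prime moduli, and the large moduli by unused primes -/
lemma primeCover_of_classes {X y k : ℕ} (m : Fin k → ℕ) (a : Fin k → ℤ) (hm : ∀ i, 2 ≤ m i)
    {M : ℝ} (hM : 0 < M) (hMX : M ≤ X)
    (hcop : ∀ i j, i ≠ j → (m i : ℝ) ≤ M → (m j : ℝ) ≤ M → (m i).Coprime (m j))
    (hcount : ((uncovered m a y).card : ℝ) + k * ((y : ℝ) / M + 1) + M ≤ Nat.primeCounting X) :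
    PrimeCover X y := by
  classical
  -- the small moduli
  let I : Finset (Fin k) := Finset.univ.filter fun i => (m i : ℝ) ≤ M
  let P0 : Finset ℕ := I.image fun i => (m i).minFac
  have hpr : ∀ i, ((m i).minFac).Prime := fun i => Nat.minFac_prime (by have := hm i; omega)
  have hinj : ∀ i ∈ I, ∀ j ∈ I, (m i).minFac = (m j).minFac → i = j := by
    intro i hi j hj hij
    by_contra hne
    have h1 := hcop i j hne (Finset.mem_filter.1 hi).2 (Finset.mem_filter.1 hj).2
    have h2 := Nat.dvd_gcd (Nat.minFac_dvd (m i)) (hij ▸ Nat.minFac_dvd (m j))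
    rw [Nat.Coprime.gcd_eq_one h1] at h2
    exact (hpr i).one_lt.ne' (Nat.dvd_one.1 h2)
  let a0 : ℕ → ℤ := fun p => if h : ∃ i ∈ I, (m i).minFac = p then a h.choose else 0
  have ha0 : ∀ i ∈ I, a0 (m i).minFac = a i := by
    intro i hi
    have h : ∃ j ∈ I, (m j).minFac = (m i).minFac := ⟨i, hi, rfl⟩
    simp only [a0, dif_pos h]
    rw [hinj _ h.choose_spec.1 i hi h.choose_spec.2]
  -- the elements not covered by the small moduli
  let R : Finset ℕ := (Finset.Icc 1 y).filter fun n => ∀ p ∈ P0, ¬ (n : ℤ) ≡ a0 p [ZMOD (p : ℤ)]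
  have hRsub : R ⊆ uncovered m a y ∪ (Finset.univ \ I).biUnion
      (fun i => (Finset.Icc 1 y).filter fun n : ℕ => (n : ℤ) ≡ a i [ZMOD (m i : ℤ)]) := by
    intro n hn
    rw [Finset.mem_filter] at hn
    rw [Finset.mem_union]
    by_cases h : ∀ i, ¬ (n : ℤ) ≡ a i [ZMOD (m i : ℤ)]
    · left
      unfold uncovered
      rw [Finset.mem_filter]
      exact ⟨hn.1, h⟩
    · right
      push Not at h
      obtain ⟨i, hi⟩ := h
      rw [Finset.mem_biUnion]
      refine ⟨i, ?_, Finset.mem_filter.2 ⟨hn.1, hi⟩⟩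
      rw [Finset.mem_sdiff]
      refine ⟨Finset.mem_univ i, fun hiI => ?_⟩
      refine hn.2 (m i).minFac (Finset.mem_image_of_mem _ hiI) ?_
      rw [ha0 i hiI]
      exact hi.of_dvd (by exact_mod_cast Nat.minFac_dvd (m i))
  have hRcard : (R.card : ℝ) ≤ (uncovered m a y).card + k * ((y : ℝ) / M + 1) := by
    have h1 := (Finset.card_le_card hRsub).trans (Finset.card_union_le _ _)
    have h2 : (((Finset.univ \ I).biUnion
      (fun i => (Finset.Icc 1 y).filter fun n : ℕ => (n : ℤ) ≡ a i [ZMOD (m i : ℤ)])).card : ℝ) ≤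
        k * ((y : ℝ) / M + 1) := by
      calc (((Finset.univ \ I).biUnion
      (fun i => (Finset.Icc 1 y).filter fun n : ℕ => (n : ℤ) ≡ a i [ZMOD (m i : ℤ)])).card : ℝ)
          ≤ ((∑ i ∈ Finset.univ \ I, ((Finset.Icc 1 y).filter
              fun n : ℕ => (n : ℤ) ≡ a i [ZMOD (m i : ℤ)]).card : ℕ) : ℝ) := by
            exact_mod_cast Finset.card_biUnion_le
        _ = ∑ i ∈ Finset.univ \ I, (((Finset.Icc 1 y).filter
              fun n : ℕ => (n : ℤ) ≡ a i [ZMOD (m i : ℤ)]).card : ℝ) := by push_cast; rfl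
        _ ≤ ∑ i ∈ Finset.univ \ I, ((y : ℝ) / M + 1) := by
            refine Finset.sum_le_sum fun i hi => ?_
            have h3 : M < m i := by
              by_contra hlt
              rw [Finset.mem_sdiff] at hi
              exact hi.2 (Finset.mem_filter.2 ⟨Finset.mem_univ i, not_lt.1 hlt⟩)
            refine (card_class_le y (m i) (by have := hm i; omega) (a i)).trans ?_
            gcongr
        _ = ((Finset.univ \ I).card : ℝ) * ((y : ℝ) / M + 1) := by
            rw [Finset.sum_const, nsmul_eq_mul]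
        _ ≤ k * ((y : ℝ) / M + 1) := by
            have h4 : (Finset.univ \ I).card ≤ k := by
              refine (Finset.card_le_univ _).trans ?_
              rw [Fintype.card_fin]
            have h5 : ((Finset.univ \ I).card : ℝ) ≤ k := by exact_mod_cast h4
            gcongr
    have h3 : (R.card : ℝ) ≤ (uncovered m a y).card + (((Finset.univ \ I).biUnion
      (fun i => (Finset.Icc 1 y).filter fun n : ℕ => (n : ℤ) ≡ a i [ZMOD (m i : ℤ)])).card : ℝ) := by
      exact_mod_cast h1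
    linarith
  have hP0M : ∀ p ∈ P0, (p : ℝ) ≤ M := by
    intro p hp
    obtain ⟨i, hi, rfl⟩ := Finset.mem_image.1 hp
    have h1 : ((m i).minFac : ℝ) ≤ m i := by
      exact_mod_cast Nat.minFac_le (by have := hm i; omega)
    exact h1.trans (Finset.mem_filter.1 hi).2
  have hP0pr : ∀ p ∈ P0, p.Prime := by
    intro p hp
    obtain ⟨i, hi, rfl⟩ := Finset.mem_image.1 hp
    exact hpr i
  have hP0card : (P0.card : ℝ) ≤ M := by
    have h1 : P0 ⊆ Finset.Icc 1 ⌊M⌋₊ := by
      intro p hp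
      rw [Finset.mem_Icc]
      exact ⟨(hP0pr p hp).one_lt.le, Nat.le_floor (hP0M p hp)⟩
    have h2 := Finset.card_le_card h1
    rw [Nat.card_Icc, Nat.add_sub_cancel] at h2
    calc (P0.card : ℝ) ≤ (⌊M⌋₊ : ℝ) := by exact_mod_cast h2
      _ ≤ M := Nat.floor_le hM.le
  refine primeCover_of_residual P0 (fun p hp => ?_) a0 hP0pr R ?_ ?_
  · have := (hP0M p hp).trans hMX
    exact_mod_cast this
  · have : (R.card : ℝ) + P0.card ≤ Nat.primeCounting X := by linarith
    exact_mod_cast this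
  · intro n h1 h2 hn
    by_contra hcon
    push Not at hcon
    exact hn (Finset.mem_filter.2 ⟨Finset.mem_Icc.2 ⟨h1, h2⟩, hcon⟩)

/-- the bound for primes implies the robust bound -/
lemma robust_of_erdos (h : ErdosBound) : RobustBound := by
  intro δ ε η hδ hδε hη
  set μ : ℝ := min (min δ η) (min (ε - δ) 1) with hμ
  have hμ0 : 0 < μ := by
    refine lt_min (lt_min hδ hη) (lt_min (by linarith) one_pos)
  have hμδ : μ ≤ δ := (min_le_left _ _).trans (min_le_left _ _)
  have hμη : μ ≤ η := (min_le_left _ _).trans (min_le_right _ _)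
  have hμε : μ ≤ ε - δ := (min_le_right _ _).trans (min_le_left _ _)
  have hμ1 : μ ≤ 1 := (min_le_right _ _).trans (min_le_right _ _)
  set τ : ℝ := μ / 2 with hτ
  have hτ0 : 0 < τ := by positivity
  have hτ1 : τ < 1 := by linarith
  obtain ⟨C, hC, x₀, hx₀⟩ := h τ hτ0
  -- eventual inequalities
  have hreal : Tendsto (fun y : ℕ => (y : ℝ)) atTop atTop := tendsto_natCast_atTop_atTop
  have e1 : ∀ᶠ y : ℕ in atTop, (8 : ℝ) ≤ (y : ℝ) ^ (τ ^ 2) :=
    ((tendsto_rpow_atTop (by positivity)).comp hreal).eventually (eventually_ge_atTop 8)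
  have e2 : ∀ᶠ y : ℕ in atTop, C + 1 ≤ (y : ℝ) ^ (τ ^ 2) :=
    ((tendsto_rpow_atTop (by positivity)).comp hreal).eventually (eventually_ge_atTop (C + 1))
  have hfl : Tendsto (fun y : ℕ => ⌊(y : ℝ) ^ (1 - τ)⌋₊) atTop atTop :=
    tendsto_nat_floor_atTop.comp ((tendsto_rpow_atTop (by linarith)).comp hreal)
  have e3 := hfl.eventually (eventually_pi τ hτ0)
  have e4 := hfl.eventually (eventually_ge_atTop x₀)
  have e5 : ∀ᶠ y : ℕ in atTop, (2 : ℝ) ≤ (y : ℝ) ^ (1 - τ) :=
    ((tendsto_rpow_atTop (by linarith)).comp hreal).eventually (eventually_ge_atTop 2)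
  obtain ⟨y₀, hy₀⟩ := eventually_atTop.1 ((((e1.and e2).and (e3.and e4)).and
    (e5.and (eventually_ge_atTop 1))))
  refine ⟨y₀, fun y hy k m a hk hm hcop => ?_⟩
  obtain ⟨⟨⟨e1, e2⟩, e3, e4⟩, e5, e6⟩ := hy₀ y hy
  by_contra hcon
  rw [not_le] at hcon
  have hy1 : (1 : ℝ) ≤ y := by exact_mod_cast e6
  have hy0 : (0 : ℝ) < y := by linarith
  set X : ℕ := ⌊(y : ℝ) ^ (1 - τ)⌋₊ with hX
  have hXle : (X : ℝ) ≤ (y : ℝ) ^ (1 - τ) := Nat.floor_le (by positivity)
  have hXge : (y : ℝ) ^ (1 - τ) / 2 ≤ X := by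
    have := Nat.lt_floor_add_one ((y : ℝ) ^ (1 - τ))
    rw [← hX] at this
    linarith
  -- lower bound for the number of primes
  have hpi : 4 * (y : ℝ) ^ (1 - μ) ≤ Nat.primeCounting X := by
    refine le_trans ?_ e3
    calc 4 * (y : ℝ) ^ (1 - μ) ≤ ((y : ℝ) ^ (τ ^ 2) / 2) * (y : ℝ) ^ (1 - μ) := by
          gcongr; linarith
      _ = (y : ℝ) ^ ((1 - τ) * (1 - τ)) / 2 := by
          rw [div_mul_eq_mul_div, ← Real.rpow_add hy0]
          congr 2
          rw [hτ]; ring
      _ = ((y : ℝ) ^ (1 - τ)) ^ (1 - τ) / 2 := by rw [Real.rpow_mul hy0.le]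
      _ ≤ ((y : ℝ) ^ (1 - τ)) ^ (1 - τ) / (2 : ℝ) ^ (1 - τ) := by
          have h2 : (2 : ℝ) ^ (1 - τ) ≤ 2 := by
            calc (2 : ℝ) ^ (1 - τ) ≤ (2 : ℝ) ^ (1 : ℝ) :=
                  Real.rpow_le_rpow_of_exponent_le (by norm_num) (by linarith)
              _ = 2 := Real.rpow_one 2
          gcongr
      _ = ((y : ℝ) ^ (1 - τ) / 2) ^ (1 - τ) := by
          rw [Real.div_rpow (by positivity) (by norm_num)]
      _ ≤ (X : ℝ) ^ (1 - τ) := by
          apply Real.rpow_le_rpow (by positivity) hXge (by linarith)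
  have hcover : PrimeCover X y := by
    refine primeCover_of_classes m a hm (M := (y : ℝ) ^ (1 - δ)) (by positivity) ?_ hcop ?_
    · refine le_trans ?_ ((le_trans ?_ hpi).trans ?_) (b := 4 * (y : ℝ) ^ (1 - μ))
      · calc (y : ℝ) ^ (1 - δ) ≤ (y : ℝ) ^ (1 - μ) :=
            Real.rpow_le_rpow_of_exponent_le hy1 (by linarith)
          _ ≤ 4 * (y : ℝ) ^ (1 - μ) := by
            have : 0 ≤ (y : ℝ) ^ (1 - μ) := by positivity
            linarith
      · exact le_refl _
      · have h1 : Nat.primeCounting X ≤ X := by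
          rw [← Nat.primesLE_card_eq_primeCounting]
          have h2 : Nat.primesLE X ⊆ Finset.Icc 1 X := by
            intro p hp
            rw [Nat.mem_primesLE] at hp
            exact Finset.mem_Icc.2 ⟨hp.2.one_lt.le, hp.1⟩
          have h3 := Finset.card_le_card h2
          rwa [Nat.card_Icc, Nat.add_sub_cancel] at h3
        exact_mod_cast h1
    · have h1 : (y : ℝ) / (y : ℝ) ^ (1 - δ) = (y : ℝ) ^ δ := by
        rw [div_eq_iff (by positivity), ← Real.rpow_add hy0]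
        simp
      rw [h1]
      have h2 : (1 : ℝ) ≤ (y : ℝ) ^ δ := Real.one_le_rpow hy1 hδ.le
      have h3 : (k : ℝ) * ((y : ℝ) ^ δ + 1) ≤ 2 * (y : ℝ) ^ (1 - μ) := by
        calc (k : ℝ) * ((y : ℝ) ^ δ + 1) ≤ (y : ℝ) ^ (1 - ε) * (2 * (y : ℝ) ^ δ) := by
              gcongr; linarith
          _ = 2 * (y : ℝ) ^ (1 - ε + δ) := by
              rw [Real.rpow_add hy0]; ring
          _ ≤ 2 * (y : ℝ) ^ (1 - μ) := by
              have := Real.rpow_le_rpow_of_exponent_le hy1 (show 1 - ε + δ ≤ 1 - μ by linarith)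
              linarith
      have h4 : (y : ℝ) ^ (1 - η) ≤ (y : ℝ) ^ (1 - μ) :=
        Real.rpow_le_rpow_of_exponent_le hy1 (by linarith)
      have h5 : (y : ℝ) ^ (1 - δ) ≤ (y : ℝ) ^ (1 - μ) :=
        Real.rpow_le_rpow_of_exponent_le hy1 (by linarith)
      linarith
  have hfin := hx₀ X e4 y hcover
  have h6 : C * (X : ℝ) ^ (1 + τ) ≤ C * (y : ℝ) ^ (1 - τ ^ 2) := by
    have h7 : (X : ℝ) ^ (1 + τ) ≤ (y : ℝ) ^ (1 - τ ^ 2) := by
      calc (X : ℝ) ^ (1 + τ) ≤ ((y : ℝ) ^ (1 - τ)) ^ (1 + τ) :=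
            Real.rpow_le_rpow (by positivity) hXle (by linarith)
        _ = (y : ℝ) ^ (1 - τ ^ 2) := by
            rw [← Real.rpow_mul hy0.le]
            congr 1; ring
    gcongr
  have h8 : (y : ℝ) = (y : ℝ) ^ (1 - τ ^ 2) * (y : ℝ) ^ (τ ^ 2) := by
    rw [← Real.rpow_add hy0]; simp
  have h9 : 0 < (y : ℝ) ^ (1 - τ ^ 2) := by positivity
  have h10 : C * (y : ℝ) ^ (1 - τ ^ 2) < (y : ℝ) ^ (1 - τ ^ 2) * (y : ℝ) ^ (τ ^ 2) := by
    nlinarith
  linarith

/-- the robust bound implies the bound for Jacobsthal's function -/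
lemma jacobsthal_of_robust (h : RobustBound) : JacobsthalBound := by
  classical
  intro ε hε
  set ε' : ℝ := ε / (1 + ε) with hε'
  have h1ε : 0 < 1 + ε := by linarith
  have hε'0 : 0 < ε' := by positivity
  have hε'1 : 1 - ε' = 1 / (1 + ε) := by rw [hε']; field_simp; ring
  obtain ⟨y₀, hy₀⟩ := h (ε' / 2) ε' 1 (by positivity) (by linarith) one_pos
  refine ⟨(y₀ : ℝ) + 2, fun n hn => ?_⟩
  by_contra hcon
  rw [not_le] at hcon
  set k : ℕ := n.primeFactors.card with hk
  have hk1 : 1 ≤ k := by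
    rw [hk, Nat.succ_le_iff, Finset.card_pos, Nat.nonempty_primeFactors]
    omega
  have hk1' : (1 : ℝ) ≤ (k : ℝ) ^ (1 + ε) :=
    Real.one_le_rpow (by exact_mod_cast hk1) h1ε.le
  have hj2 : (2 : ℝ) < jacobsthal n := by
    have : (0 : ℝ) ≤ y₀ := by positivity
    nlinarith
  have hj1 : 2 < jacobsthal n := by exact_mod_cast hj2
  -- a long interval without coprime elements
  have hnot := Nat.notMem_of_lt_sInf (show jacobsthal n - 1 < jacobsthal n by omega)
  simp only [Set.mem_ofPred_eq, not_forall, not_exists, not_and] at hnot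
  obtain ⟨N, hN⟩ := hnot
  set y : ℕ := jacobsthal n - 1 with hy
  have hyj : (y : ℝ) = jacobsthal n - 1 := by
    rw [hy, Nat.cast_sub (by omega)]; simp
  have hyk : (k : ℝ) ^ (1 + ε) ≤ y := by
    have : (0 : ℝ) ≤ y₀ := by positivity
    rw [hyj]
    nlinarith
  have hyy : (y₀ : ℝ) ≤ y := by
    rw [hyj]
    nlinarith
  let e := n.primeFactors.equivFin
  have hpr : ∀ i : Fin k, ((e.symm i : n.primeFactors) : ℕ).Prime := fun i =>
    Nat.prime_of_mem_primeFactors (e.symm i).2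
  have h3 := hy₀ y (by exact_mod_cast hyy) k (fun i => ((e.symm i : n.primeFactors) : ℕ))
    (fun _ => -N) ?_ (fun i => (hpr i).two_le) ?_
  · rw [sub_self, Real.rpow_zero] at h3
    have h4 : 0 < (uncovered (fun i : Fin k => ((e.symm i : n.primeFactors) : ℕ))
        (fun _ => -N) y).card := by
      have : (0 : ℝ) < (uncovered (fun i : Fin k => ((e.symm i : n.primeFactors) : ℕ))
        (fun _ => -N) y).card := by linarith
      exact_mod_cast this
    obtain ⟨t, ht⟩ := Finset.card_pos.1 h4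
    unfold uncovered at ht
    rw [Finset.mem_filter, Finset.mem_Icc] at ht
    refine hN (N + t) (by have := ht.1.1; omega) (by have := ht.1.2; omega) ?_
    rw [Int.isCoprime_iff_gcd_eq_one]
    by_contra hg
    obtain ⟨p, hp, hpg⟩ := Nat.exists_prime_and_dvd hg
    have h5 : (p : ℤ) ∣ N + t := (Int.natCast_dvd_natCast.2 hpg).trans (Int.gcd_dvd_left _ _)
    have h6 : p ∣ n := Int.natCast_dvd_natCast.1
      ((Int.natCast_dvd_natCast.2 hpg).trans (Int.gcd_dvd_right _ _))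
    have h7 : p ∈ n.primeFactors := Nat.mem_primeFactors.2 ⟨hp, h6, by omega⟩
    have h8 := ht.2 (e ⟨p, h7⟩)
    simp only [Equiv.symm_apply_apply] at h8
    apply h8
    rw [Int.modEq_comm, Int.modEq_iff_dvd]
    have h9 : (t : ℤ) - -N = N + t := by ring
    rw [h9]
    exact h5
  · rw [hε'1]
    calc (k : ℝ) = ((k : ℝ) ^ (1 + ε)) ^ (1 / (1 + ε)) := by
          rw [← Real.rpow_mul (by positivity)]
          field_simp
          rw [Real.rpow_one]
      _ ≤ (y : ℝ) ^ (1 / (1 + ε)) := by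
          apply Real.rpow_le_rpow (by positivity) hyk (by positivity)
  · intro i j hij _ _
    rw [Nat.coprime_primes (hpr i) (hpr j)]
    intro h
    exact hij (e.symm.injective (Subtype.ext h))

/-- the bound for Jacobsthal's function implies the bound for primes -/
lemma erdos_of_jacobsthal (h : JacobsthalBound) : ErdosBound := by
  classical
  intro ε hε
  obtain ⟨C, hC⟩ := h ε hε
  refine ⟨|C| + 1, by positivity, 2, fun x hx y ⟨a, ha⟩ => ?_⟩
  set n : ℕ := primorial x with hn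
  have hdvd : ∀ p : ℕ, p.Prime → p ≤ x → p ∣ n := by
    intro p hp hpx
    rw [hn, primorial]
    exact Finset.dvd_prod_of_mem _ (by simp [hp]; omega)
  have hn0 : 0 < n := primorial_pos x
  have hn2 : 2 ≤ n := Nat.le_of_dvd hn0 (hdvd 2 Nat.prime_two hx)
  -- Chinese remainder theorem
  obtain ⟨N, hN⟩ : ∃ N : ℤ, ∀ p : ℕ, p.Prime → p ≤ x → (p : ℤ) ∣ N + a p := by
    obtain ⟨N, hN⟩ := Nat.chineseRemainderOfFinset (fun p => ((-a p) % (p : ℤ)).toNat) id
      (Nat.primesLE x) (fun p hp => (Nat.prime_of_mem_primesLE hp).ne_zero)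
      (fun p hp q hq hpq => (Nat.coprime_primes (Nat.prime_of_mem_primesLE hp)
        (Nat.prime_of_mem_primesLE hq)).2 hpq)
    refine ⟨N, fun p hp hpx => ?_⟩
    have h1 := hN p (Nat.mem_primesLE.2 ⟨hpx, hp⟩)
    rw [id, ← Int.natCast_modEq_iff, Int.toNat_of_nonneg
      (Int.emod_nonneg _ (by exact_mod_cast hp.ne_zero))] at h1
    have h2 : (N : ℤ) ≡ -a p [ZMOD (p : ℤ)] := h1.trans (Int.mod_modEq _ _)
    have h3 := h2.symm.dvd
    rwa [sub_neg_eq_add] at h3
  have hlt : y < jacobsthal n := by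
    by_contra hcon
    rw [not_lt] at hcon
    have hne : {g : ℕ | ∀ N : ℤ, ∃ m : ℤ, N < m ∧ m ≤ N + g ∧ IsCoprime m (n : ℤ)}.Nonempty := by
      refine ⟨n, fun N => ⟨N + 1 + ((-N) % (n : ℤ)), ?_, ?_, ?_⟩⟩
      · have := Int.emod_nonneg (-N) (show (n : ℤ) ≠ 0 by omega)
        omega
      · have := Int.emod_lt_of_pos (-N) (show (0 : ℤ) < n by omega)
        omega
      · have h1 : (n : ℤ) ∣ N + (-N) % (n : ℤ) := by
          have := Int.mod_modEq (-N) (n : ℤ)
          have h2 := this.symm.dvd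
          rwa [sub_neg_eq_add, add_comm] at h2
        obtain ⟨c, hc⟩ := h1
        refine ⟨1, -c, ?_⟩
        linear_combination hc
    obtain ⟨m, hm1, hm2, hm3⟩ := Nat.sInf_mem hne N
    change m ≤ N + (jacobsthal n : ℕ) at hm2
    have hm4 : m ≤ N + y := by omega
    obtain ⟨t, rfl⟩ : ∃ t : ℕ, m = N + t := ⟨(m - N).toNat, by omega⟩
    obtain ⟨p, hp, hpx, hpt⟩ := ha t (by omega) (by omega)
    have h1 := hN p hp hpx
    have h2 : (p : ℤ) ∣ N + t := by
      have h3 := hpt.symm.dvd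
      have h4 : N + (t : ℤ) = (N + a p) + (t - a p) := by ring
      rw [h4]
      exact dvd_add h1 h3
    have h3 := hm3.isUnit_of_dvd' h2 (Int.natCast_dvd_natCast.2 (hdvd p hp hpx))
    rw [Int.isUnit_iff_natAbs_eq, Int.natAbs_natCast] at h3
    exact hp.one_lt.ne' h3
  have hω : n.primeFactors.card ≤ x := by
    have h1 : n.primeFactors ⊆ Finset.Icc 1 x := by
      intro p hp
      have hpp := Nat.prime_of_mem_primeFactors hp
      have h2 := Nat.dvd_of_mem_primeFactors hp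
      rw [hn, primorial, hpp.prime.dvd_finsetProd_iff] at h2
      obtain ⟨q, hq, hpq⟩ := h2
      rw [Finset.mem_filter, Finset.mem_range] at hq
      have h3 := (Nat.prime_dvd_prime_iff_eq hpp hq.2).1 hpq
      rw [Finset.mem_Icc]
      exact ⟨hpp.one_lt.le, by omega⟩
    have h2 := Finset.card_le_card h1
    rwa [Nat.card_Icc, Nat.add_sub_cancel] at h2
  have h1ε : 0 < 1 + ε := by linarith
  calc (y : ℝ) ≤ jacobsthal n := by exact_mod_cast hlt.le
    _ ≤ C * (n.primeFactors.card : ℝ) ^ (1 + ε) := hC n hn2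
    _ ≤ (|C| + 1) * (n.primeFactors.card : ℝ) ^ (1 + ε) := by
        have := le_abs_self C
        gcongr
        linarith
    _ ≤ (|C| + 1) * (x : ℝ) ^ (1 + ε) := by
        have h2 : (n.primeFactors.card : ℝ) ≤ x := by exact_mod_cast hω
        gcongr

theorem main_tfae : List.TFAE [ErdosBound, JacobsthalBound, RobustBound] := by
  tfae_have 1 → 3 := robust_of_erdos
  tfae_have 3 → 2 := jacobsthal_of_robust
  tfae_have 2 → 1 := erdos_of_jacobsthal
  tfae_finish

end Pool.Agent.Lib.MP_2a99c0_nt
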